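import Pool.Agent.N627.ND.Stm

/-!
Project ND (helper627), part VC (helper263): from finite factorizations to hereditary discrepancy.
-/

set_option autoImplicit false

namespace Pool.Agent.N263.ND

open Pool.Agent.N627.ND Finset

/-- the relation shatters `N` points -/
def Shat {U W : Type} (X : U → W → Prop) (N : ℕ) : Prop :=
  ∃ u : Fin N → U, ∀ P : Fin N → Prop, ∃ w, ∀ a, X (u a) w ↔ P a

open Classical in
/-- the family of the traces on a finite set -/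
noncomputable def tr {U W : Type} (X : U → W → Prop) (F : Finset U) : Finset (Finset U) :=
  F.powerset.filter fun t => ∃ w, F.filter (fun a => X a w) = t

lemma mem_tr {U W : Type} {X : U → W → Prop} {F t : Finset U} :
    t ∈ tr X F ↔ ∃ w, open Classical in F.filter (fun a => X a w) = t := by
  classical
  unfold tr
  rw [mem_filter, mem_powerset]
  constructor
  · rintro ⟨-, w, hw⟩
    refine ⟨w, ?_⟩
    convert hw
  · rintro ⟨w, hw⟩
    refine ⟨?_, w, ?_⟩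
    · rw [← hw]
      exact filter_subset _ _
    · convert hw

open Classical in
lemma shatterer_sub {U W : Type} (X : U → W → Prop) (F : Finset U) (N : ℕ) (hN : ¬ Shat X N) :
    (tr X F).shatterer ⊆ F.powerset.filter fun s => s.card < N := by
  intro s hs
  rw [mem_shatterer] at hs
  have hsF : ∀ t ∈ tr X F, t ⊆ F := by
    intro t ht
    obtain ⟨w, hw⟩ := mem_tr.1 ht
    rw [← hw]
    exact filter_subset _ _
  rw [mem_filter, mem_powerset]
  constructor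
  · obtain ⟨u, hu, hsu⟩ := hs (Subset.refl s)
    intro a ha
    rw [← hsu] at ha
    exact hsF u hu (mem_inter.1 ha).2
  · by_contra hcard
    have hcard' : N ≤ s.card := not_lt.1 hcard
    obtain ⟨s', hs's, hs'c⟩ := exists_subset_card_eq hcard'
    have hsh : (tr X F).Shatters s' := hs.mono_right hs's
    apply hN
    let e := s'.equivFinOfCardEq hs'c
    refine ⟨fun a => (e.symm a : U), fun P => ?_⟩
    obtain ⟨t, ht, hst⟩ := hsh (filter_subset (fun x => ∃ h : x ∈ s', P (e ⟨x, h⟩)) s')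
    obtain ⟨w, hw⟩ := mem_tr.1 ht
    refine ⟨w, fun a => ?_⟩
    have ha : (e.symm a : U) ∈ s' := (e.symm a).2
    have hsF' : s' ⊆ F := by
      obtain ⟨u, hu, hsu⟩ := hsh (Subset.refl s')
      intro x hx
      rw [← hsu] at hx
      exact hsF u hu (mem_inter.1 hx).2
    have h1 : X (e.symm a : U) w ↔ (e.symm a : U) ∈ t := by
      rw [← hw, mem_filter]
      exact ⟨fun h => ⟨hsF' ha, h⟩, fun h => h.2⟩
    have h2 : (e.symm a : U) ∈ t ↔ (e.symm a : U) ∈ s' ∩ t := by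
      rw [mem_inter]
      exact ⟨fun h => ⟨ha, h⟩, fun h => h.2⟩
    rw [h1, h2, hst, mem_filter]
    constructor
    · rintro ⟨_, h3, h4⟩
      have h5 : (⟨(e.symm a : U), h3⟩ : s') = e.symm a := Subtype.ext rfl
      rw [h5, Equiv.apply_symm_apply] at h4
      exact h4
    · intro h
      refine ⟨ha, ha, ?_⟩
      have h5 : (⟨(e.symm a : U), ha⟩ : s') = e.symm a := Subtype.ext rfl
      rw [h5, Equiv.apply_symm_apply]
      exact h

lemma sum_choose_le (n N : ℕ) : ∑ i ∈ range N, n.choose i ≤ (n + 1) ^ N := by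
  rw [add_pow]
  refine (sum_le_sum_of_subset (range_subset_range.2 (Nat.le_succ N))).trans ?_
  refine sum_le_sum fun i hi => ?_
  have h1 : n.choose i ≤ n ^ i := Nat.choose_le_pow n i
  have h2 : 1 ≤ N.choose i := Nat.choose_pos (by rw [mem_range] at hi; omega)
  calc n.choose i ≤ n ^ i := h1
    _ = n ^ i * 1 ^ (N - i) * 1 := by rw [one_pow, mul_one, mul_one]
    _ ≤ n ^ i * 1 ^ (N - i) * N.choose i := Nat.mul_le_mul_left _ h2

open Classical in
lemma card_tr {U W : Type} (X : U → W → Prop) (F : Finset U) (N : ℕ) (hN : ¬ Shat X N) :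
    (tr X F).card ≤ (F.card + 1) ^ N := by
  refine (card_le_card_shatterer _).trans ((card_le_card (shatterer_sub X F N hN)).trans ?_)
  have h1 : F.powerset.filter (fun s => s.card < N) ⊆ (range N).biUnion fun i => F.powersetCard i := by
    intro s hs
    rw [mem_filter, mem_powerset] at hs
    rw [mem_biUnion]
    exact ⟨s.card, mem_range.2 hs.2, mem_powersetCard.2 ⟨hs.1, rfl⟩⟩
  refine (card_le_card h1).trans (card_biUnion_le.trans ?_)
  simp only [card_powersetCard]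
  exact sum_choose_le _ _

lemma no_shat (hBF : S_BF) (hHA : S_HA) (𝒮 : (U W : Type) → (U → W → Prop) → Prop) (C : ℝ)
    (hC : ∀ (U W : Type) (X : U → W → Prop), 𝒮 U W X →
    ∀ (A B : Type) [Fintype A] [Fintype B] (f : A → U) (g : B → W),
    SpP (C * ((Fintype.card A : ℝ) + (Fintype.card B : ℝ)) ^ (1 / 16 : ℝ))
      (fun a b => X (f a) (g b))) :
    ∃ N : ℕ, ∀ (U W : Type) (X : U → W → Prop), 𝒮 U W X → ¬ Shat X N := by
  classical
  obtain ⟨k, hk⟩ := pow_unbounded_of_one_lt (2592 * C ^ 8) (one_lt_two : (1 : ℝ) < 2)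
  refine ⟨2 ^ k, fun U W X hX ⟨u, hu⟩ => ?_⟩
  obtain ⟨H, hH⟩ := hHA k
  choose g hg using fun b : Fin (2 ^ k) => hu fun a => H a b
  have h1 := hC U W X hX (Fin (2 ^ k)) (Fin (2 ^ k)) u g
  obtain ⟨χ, hχ, hχ2⟩ := hBF _ _ _ _ h1
  obtain ⟨b, hb⟩ := hH χ hχ
  have h2 := hχ2 b
  have h3 : Finset.univ.filter (fun a => X (u a) (g b)) = Finset.univ.filter (fun a => H a b) := by
    ext a
    simp only [mem_filter, mem_univ, true_and]
    exact hg b a
  rw [h3] at h2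
  set s : ℝ := ((∑ a ∈ Finset.univ.filter (fun a => H a b), χ a : ℤ) : ℝ) with hs
  have hb' : (2 : ℝ) ^ k ≤ 9 * s ^ 2 := by
    have h4 : s = ((∑ a ∈ Finset.univ.filter (fun a => H a b), χ a : ℤ) : ℝ) := hs
    rw [h4]
    convert hb using 5
  rw [Fintype.card_fin] at h2
  set T : ℝ := ((2 ^ k : ℕ) : ℝ) + ((2 ^ k : ℕ) : ℝ) with hT
  have hT2 : T = 2 * 2 ^ k := by rw [hT]; push_cast; ring
  have hT1 : 1 ≤ T := by
    rw [hT2]
    have : (1 : ℝ) ≤ 2 ^ k := one_le_pow₀ one_le_two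
    linarith
  have hT0 : 0 ≤ T := by linarith
  have h5 : (T ^ (1 / 16 : ℝ)) ^ 8 ≤ T := by
    rw [← Real.rpow_natCast, ← Real.rpow_mul hT0]
    calc T ^ ((1 / 16 : ℝ) * (8 : ℕ)) ≤ T ^ (1 : ℝ) :=
          Real.rpow_le_rpow_of_exponent_le hT1 (by norm_num)
      _ = T := Real.rpow_one T
  -- `N ≤ 9 s ^ 2 ≤ 36 C ^ 4 r ^ 4`
  set r : ℝ := T ^ (1 / 16 : ℝ) with hr
  have hr0 : 0 ≤ r := by positivity
  have h6 : s ^ 2 ≤ (2 * (C * r) ^ 2) ^ 2 := by
    have h7 : |s| ≤ |2 * (C * r) ^ 2| := h2.trans (le_abs_self _)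
    exact sq_le_sq.2 h7
  have h8 : (2 : ℝ) ^ k ≤ 36 * (C ^ 4 * r ^ 4) := by nlinarith
  have h9 : ((2 : ℝ) ^ k) ^ 2 ≤ (36 * (C ^ 4 * r ^ 4)) ^ 2 :=
    pow_le_pow_left₀ (by positivity) h8 2
  have h10 : (36 * (C ^ 4 * r ^ 4)) ^ 2 ≤ 1296 * C ^ 8 * (2 * 2 ^ k) := by
    have h11 : (36 * (C ^ 4 * r ^ 4)) ^ 2 = 1296 * C ^ 8 * r ^ 8 := by ring
    rw [h11, ← hT2]
    exact mul_le_mul_of_nonneg_left h5 (by positivity)
  have h12 : (0 : ℝ) < 2 ^ k := by positivity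
  nlinarith

lemma bound_aux {ε : ℝ} (hε : 0 < ε) (N n m : ℕ) (hn : 1 ≤ n) (hm : m ≤ (n + 1) ^ N) (C : ℝ) :
    2 * (C * ((n : ℝ) + (m : ℝ)) ^ (ε / (2 * ((N : ℝ) + 1)))) ^ 2 ≤
      2 * (C ^ 2 * (((2 : ℝ) ^ (N + 2)) ^ (ε / (2 * ((N : ℝ) + 1)))) ^ 2) * (n : ℝ) ^ ε := by
  set ε' : ℝ := ε / (2 * ((N : ℝ) + 1)) with hε'
  have hε'0 : 0 < ε' := by positivity
  have hn1 : (1 : ℝ) ≤ n := by exact_mod_cast hn
  have hn0 : (0 : ℝ) ≤ n := by linarith
  have h1 : (n : ℝ) + (m : ℝ) ≤ 2 ^ (N + 2) * (n : ℝ) ^ (N + 1) := by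
    have h2 : (m : ℝ) ≤ ((n : ℝ) + 1) ^ N := by exact_mod_cast hm
    have h3 : ((n : ℝ) + 1) ^ N ≤ (2 * (n : ℝ)) ^ N :=
      pow_le_pow_left₀ (by linarith) (by linarith) N
    have h4 : (2 * (n : ℝ)) ^ N ≤ (2 * (n : ℝ)) ^ (N + 1) :=
      pow_le_pow_right₀ (by linarith) (Nat.le_succ N)
    have h5 : (n : ℝ) ≤ (2 * (n : ℝ)) ^ (N + 1) := by
      calc (n : ℝ) ≤ 2 * (n : ℝ) := by linarith
        _ = (2 * (n : ℝ)) ^ 1 := (pow_one _).symm
        _ ≤ (2 * (n : ℝ)) ^ (N + 1) := pow_le_pow_right₀ (by linarith) (by omega)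
    have h6 : 2 ^ (N + 2) * (n : ℝ) ^ (N + 1) = 2 * (2 * (n : ℝ)) ^ (N + 1) := by
      rw [mul_pow]; ring
    rw [h6]
    linarith
  have h7 : ((n : ℝ) + (m : ℝ)) ^ ε' ≤ ((2 : ℝ) ^ (N + 2)) ^ ε' * ((n : ℝ) ^ (N + 1)) ^ ε' := by
    rw [← Real.mul_rpow (by positivity) (by positivity)]
    exact Real.rpow_le_rpow (by positivity) h1 hε'0.le
  have h8 : (((n : ℝ) ^ (N + 1)) ^ ε') ^ 2 = (n : ℝ) ^ ε := by
    rw [← Real.rpow_natCast, ← Real.rpow_natCast, ← Real.rpow_mul hn0, ← Real.rpow_mul hn0]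
    congr 1
    rw [hε']
    push_cast
    field_simp
  have h9 : (((n : ℝ) + (m : ℝ)) ^ ε') ^ 2 ≤ (((2 : ℝ) ^ (N + 2)) ^ ε') ^ 2 * (n : ℝ) ^ ε := by
    rw [← h8, ← mul_pow]
    exact pow_le_pow_left₀ (by positivity) h7 2
  have h10 : 2 * (C * ((n : ℝ) + (m : ℝ)) ^ ε') ^ 2 = 2 * C ^ 2 * (((n : ℝ) + (m : ℝ)) ^ ε') ^ 2 := by
    ring
  rw [h10]
  refine (mul_le_mul_of_nonneg_left h9 (by positivity)).trans (le_of_eq ?_)
  ring

open Classical in
theorem vc (hBF : S_BF) (hHA : S_HA) : S_VC := by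
  intro 𝒮 hyp ε hε
  obtain ⟨C₀, hC₀⟩ := hyp (1 / 16) (by norm_num)
  obtain ⟨N, hN⟩ := no_shat hBF hHA 𝒮 C₀ hC₀
  obtain ⟨C, hC⟩ := hyp (ε / (2 * ((N : ℝ) + 1))) (by positivity)
  refine ⟨2 * (C ^ 2 * (((2 : ℝ) ^ (N + 2)) ^ (ε / (2 * ((N : ℝ) + 1)))) ^ 2),
    fun U W X hX F => ?_⟩
  rcases F.eq_empty_or_nonempty with rfl | hne
  · refine ⟨fun _ => 1, fun _ => Or.inl rfl, fun w => ?_⟩
    simp [Real.zero_rpow hε.ne']
  have hcard := card_tr X F N (hN U W X hX)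
  have hrep : ∀ t : {t // t ∈ tr X F}, ∃ w, F.filter (fun a => X a w) = t.1 :=
    fun t => mem_tr.1 t.2
  choose g hg using hrep
  have h1 := hC U W X hX {a // a ∈ F} {t // t ∈ tr X F} Subtype.val g
  obtain ⟨χ, hχ, hχ2⟩ := hBF _ _ _ _ h1
  set χ' : U → ℤ := fun a => if h : a ∈ F then χ ⟨a, h⟩ else 1 with hχ'
  have hχ'1 : ∀ a : {a // a ∈ F}, χ' a = χ a := by
    intro a
    rw [hχ']
    exact dif_pos a.2
  refine ⟨χ', fun a => ?_, fun w => ?_⟩
  · by_cases h : a ∈ F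
    · rw [hχ'1 ⟨a, h⟩]
      exact hχ _
    · have h2 : χ' a = 1 := dif_neg h
      exact Or.inl h2
  · have htw : F.filter (fun a => X a w) ∈ tr X F := mem_tr.2 ⟨w, rfl⟩
    have h2 := hχ2 ⟨_, htw⟩
    have hgw := hg ⟨_, htw⟩
    set w' := g ⟨_, htw⟩ with hw'
    simp only at hgw
    have h3 : ∑ a ∈ F.filter (fun a => X a w), χ' a =
        ∑ a ∈ (Finset.univ : Finset {a // a ∈ F}).filter (fun a => X a.1 w'), χ a := by
      rw [← hgw]
      symm
      refine Finset.sum_bij (fun a _ => (a : U)) ?_ ?_ ?_ ?_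
      · intro a ha
        rw [mem_filter] at ha
        exact mem_filter.2 ⟨a.2, ha.2⟩
      · intro a _ b _ hab
        exact Subtype.ext hab
      · intro b hb
        rw [mem_filter] at hb
        exact ⟨⟨b, hb.1⟩, mem_filter.2 ⟨mem_univ _, hb.2⟩, rfl⟩
      · intro a _
        exact (hχ'1 a).symm
    rw [h3]
    refine h2.trans ?_
    rw [Fintype.card_coe, Fintype.card_coe]
    exact bound_aux hε N _ _ (Finset.card_pos.2 hne) hcard C

end Pool.Agent.N263.ND
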